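import Pool.Agent.U468.FV.Rank

set_option autoImplicit false

/-!
# Horrocks' conjecture in five variables for modules equivariant under `SL_2`

Let `K` be a field of characteristic zero (for example `ℚ`), `S = K[X_0, …, X_4]` and `M ≠ 0` an `S`-module of finite
dimension over `K`. Let `d = 4`, or let `d = 3` and let `X_4` be nilpotent on `M`. Let `sl_2` act on `M` by `K`-linear
operators `E, F, H`, compatibly with the action on the span of the variables for which `X_0, …, X_d` are the standard
basis of the binary forms of degree `d` and the other variable (for `d = 3`) is invariant:
`E (X_c z) = X_c (E z) + c X_(c - 1) z` and `F (X_c z) = X_c (F z) + (d - c) X_(c + 1) z` for `c ≤ d`. Then every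
resolution `G` of `M` by finite free `S`-modules satisfies `binom(5, i) ≤ rank G_i` for all `i`.

So Horrocks' conjecture holds, in the first open dimension, for all modules of finite length over the ring of
polynomials in the coefficients of binary quartics which are equivariant under `SL_2` (`d = 4`; equivalently, under the
rotation group, for the five dimensional irreducible representation), and for binary cubics with an additional
invariant variable (`d = 3`). No grading of `M` is needed. Up to linear changes of the variables these are all actions
of `sl_2` on five variables with an irreducible constituent of dimension at least four.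

Proof: let `h` be the highest weight of `M` and `M_h` the part of this weight. The group acts on the Koszul complex, and
its part of highest weight is the exterior product of the two variables of positive weight with the Koszul complex of
`M_h` for the variable `X` of weight zero. It contributes irreducible representations of dimension `h + 7` to `Tor_2`
and `Tor_3` if `d = 4`, which settles `h ≥ 3`. If `h ≤ 2` then `F³ = 0` on `M`, hence `4 X_4 = F² X_0 F²`, and the
relation `X_0 X_4 = X_4 X_0` for the operator `P = X_0 F² X_0` of weight `4` gives `H² P = H P` and
`H² P - 7 H P + 12 P = 0`, so `P = 0` and `X_0 X_4 = 0`. The orbit of this quadric spans all quadrics, so all products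
of two variables vanish on `M`, and a count of dimensions settles this case. If `d = 3` the kernel of the invariant
variable on the second Koszul homology of the four other variables has dimension at least `h + 5` by the same argument,
and at least `4` on the first and the third; so `β_2, β_3 ≥ h + 9`, which settles `h ≥ 1`. For `h = 0` the variables
`X_0, …, X_3` act by zero.
-/

namespace Pool.Agent.Results.MP_e2ce73_al.BinaryFormsFiveVariables

open MvPolynomial Pool.Agent.Y577.BT Pool.Agent.U468.FV

universe u v

/-- **The result.** -/
theorem result (K : Type u) [Field K] [CharZero K]
    (M : Type v) [AddCommGroup M] [Module K M] [FiniteDimensional K M] [Nontrivial M]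
    [Module (MvPolynomial (Fin 5) K) M] [IsScalarTower K (MvPolynomial (Fin 5) K) M]
    (d : ℕ) (hd : d = 3 ∨ d = 4) (E F H : Module.End K M)
    (h : Forms d (fun c => Algebra.lsmul K K M (X c : MvPolynomial (Fin 5) K)) E F H)
    (hnil : d = 3 → ∃ N : ℕ, ∀ z : M, (X 4 : MvPolynomial (Fin 5) K) ^ N • z = 0)
    (G : FreeRes (MvPolynomial (Fin 5) K) M) (i : ℕ) : Nat.choose 5 i ≤ G.rank i :=
  forms_poly K M d hd E F H h hnil G i

end Pool.Agent.Results.MP_e2ce73_al.BinaryFormsFiveVariables
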