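import Pool.Agent.U468.SL.Poly2

set_option autoImplicit false

/-!
# Betti numbers and the weights of commuting representations of `sl_2`

Let `K` be a field of characteristic zero (for example `ℚ`), `S = K[X_0, …, X_(m - 1)]` and `M ≠ 0` an `S`-module of
finite dimension over `K` on which the variables are nilpotent (for example a graded module). Let `(p l, q l)`,
`l < t`, be disjoint pairs of the variables, and let `E l, F l, H l` be commuting representations of `sl_2` on `M`, the
`l`-th one acting on the span of `X_(p l)`, `X_(q l)` by the standard representation (`E` maps `X_q` to `X_p` and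
`X_p` to `0`) and commuting with the other variables. Let `E l ^ w l ≠ 0` on `M`. Then every resolution `G` of `M` by
finite free `S`-modules satisfies, for `1 ≤ i ≤ m - 1`,

`(∑ l, (w l + 2)) * b ≤ min(i, m - i, t) * rank G_i`

with `b = binom(m - 2, i - 1)` if `m ≤ 2 t + 4` or `i ≤ 2` or `m - 2 ≤ i`, and with `b = 1` in general.

So the Betti numbers grow linearly with the weights. For `i = 1` there is equality for `m = 2 t` and
`M = ⨂ K[x_l, y_l] / (x_l, y_l) ^ (w_l + 1)`. Horrocks' inequality `rank G_i ≥ binom(m, i)` follows in any number of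
variables if the weights are large. For `t = 1`: it follows for `i = 2` if `2 (w + 2) (m - 2) ≥ m (m - 1)`, and
for every `i` with `1 ≤ i ≤ m - 1` if `w + 2 ≥ binom(m, i)`.

Proof: the copies of `sl_2` act on the Koszul homology `H_i(M)`. Let `h_l ≥ w_l` be the largest weight of the `l`-th
copy on `M` and `M_l` the part of `M` of this weight. The part of weight `h_l + 1` of `H_i(M)` is
`x_l ∧ H_(i - 1)(M_l)`, with the Koszul homology of `M_l` for the other `m - 2` variables, and generates
representations of dimension `h_l + 2`. The projections to these isotypic components commute and products of more than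
`min(i, m - i, t)` of them vanish, so a count of traces gives
`∑ l, (h_l + 2) dim H_(i - 1)(M_l) ≤ min(i, m - i, t) dim H_i(M)`.
-/

namespace Pool.Agent.Results.MP_e2ce73_al.CommutingSl2Weights

open MvPolynomial Pool.Agent.Y577.BT Pool.Agent.U468.SL

universe u v

/-- **The result.** -/
theorem result (K : Type u) [Field K] [CharZero K] (m t : ℕ)
    (M : Type v) [AddCommGroup M] [Module K M] [FiniteDimensional K M] [Nontrivial M]
    [Module (MvPolynomial (Fin m) K) M] [IsScalarTower K (MvPolynomial (Fin m) K) M]
    (p q : Fin t → Fin m) (hpq : Function.Injective (Sum.elim p q))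
    (E F H : Fin t → Module.End K M)
    (hM : Sl2Pairs (fun c => Algebra.lsmul K K M (X c : MvPolynomial (Fin m) K)) p q E F H)
    (hnil : ∀ c, (∀ l, c ≠ p l) → (∀ l, c ≠ q l) → ∃ N : ℕ, ∀ z : M, (X c : MvPolynomial (Fin m) K) ^ N • z = 0)
    (w : Fin t → ℕ) (hw : ∀ l, E l ^ w l ≠ 0) (G : FreeRes (MvPolynomial (Fin m) K) M) (i : ℕ) (hi : 1 ≤ i)
    (him : i + 1 ≤ m) (b : ℕ)
    (hb : b = 1 ∨ (b = (m - 2).choose (i - 1) ∧ (m ≤ 2 * t + 4 ∨ i ≤ 2 ∨ m ≤ i + 2))) :
    (∑ l, (w l + 2)) * b ≤ min (min i (m - i)) t * G.rank i :=
  sl2_poly K m t M p q hpq E F H hM hnil w hw G i hi him b hb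

end Pool.Agent.Results.MP_e2ce73_al.CommutingSl2Weights
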