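import Pool.Agent.U54.EM.Sub

set_option autoImplicit false

/-!
# Horrocks' inequality for equivariant modules over spaces of matrices

Let `k` be a subfield of `ℂ` (for example `ℚ`), and let `S = k[X_1, …, X_m]` be the polynomial ring whose
variables are the independent entries of a family of matrices: rectangular `p × q` matrices,
symmetric matrices and skew-symmetric matrices, in any number and of any sizes. The general linear
group of every index set acts on `S` by row and column operations; `D a b` are the derivations of
the matrix units, `D a b (X_(y z)) = δ_(y b) X_(a z) + δ_(z b) X_(y a)`.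

Let `ρ a b` be `r × r` matrices over `k` such that the adjoint of `ρ a b` is `ρ b a` for the
Hermitian form `∑ d_q |u_q|^2` (`d_q > 0`), for example `ρ = 0`, or the matrices of the matrix
units in a rational representation of the product of the general linear groups (it has an
invariant positive definite form over `ℚ`, and an orthogonal basis). Let `N ≠ S^r` be an
`S`-submodule of `S^r` of finite codimension over `k`, which is stable under the operators
`D a b + ρ a b`, i.e. `M = S^r / N` is an equivariant module of finite length. Then every
resolution `F` of `M` by finite free `S`-modules satisfies the inequality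
`binom(m, i) ≤ rank F_i` of Horrocks for every `i`; in particular the Betti numbers do. For `r = 1` and
`ρ = 0` these are the cyclic modules `S / I` for the ideals `I` of finite colength which are stable
under row and column operations.

The indices of the rows and columns of all matrices are the elements of `Fin n`, with labels `lab`;
the entry in position `(x, y)` exists if the label of `y` is the partner `par` of the label of
`x` (`Q.Al`, not on the diagonal of a skew-symmetric matrix); two different partner labels give a
rectangular matrix, a label which is its own partner a symmetric matrix, or a skew-symmetric one if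
`sk` is true. `e : Fin m ≃ Q.Pos` numbers the positions on or above the diagonal and `Q.mat e X y z`
is the entry in position `(y, z)`.
-/

namespace Pool.Agent.Results.MP_e2ce73_al.MatrixSymmetries

open Pool.Agent.U54.EM Pool.Agent.Y577.BT MvPolynomial

theorem result (k : Type) [Field k] [Algebra k ℂ] (n s m r : ℕ) (Q : Shape n s)
    (e : Fin m ≃ Q.Pos)
    (D : Fin n → Fin n → Derivation k (MvPolynomial (Fin m) k) (MvPolynomial (Fin m) k))
    (hD : MatrixDerivations e k D)
    (ρ : Fin n → Fin n → Matrix (Fin r) (Fin r) k) (d : Fin r → ℝ) (hd : ∀ q, 0 < d q)
    (hρ : ∀ a b, Q.lab a = Q.lab b → ∀ q l,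
      (d q : ℂ) * starRingEnd ℂ (algebraMap k ℂ (ρ a b q l)) =
        (d l : ℂ) * algebraMap k ℂ (ρ b a l q))
    (N : Submodule (MvPolynomial (Fin m) k) (Fin r → MvPolynomial (Fin m) k))
    (hN : ∀ a b, Q.lab a = Q.lab b → ∀ p ∈ N, (fun q => D a b (p q) + ∑ l, ρ a b q l • p l) ∈ N)
    (hfin : Module.Finite k ((Fin r → MvPolynomial (Fin m) k) ⧸ N)) (hN1 : N ≠ ⊤)
    (F : FreeRes (MvPolynomial (Fin m) k) ((Fin r → MvPolynomial (Fin m) k) ⧸ N)) (i : ℕ) :
    m.choose i ≤ F.rank i :=
  sub_rank e D hD ρ d hd hρ N hN hfin hN1 F i

end Pool.Agent.Results.MP_e2ce73_al.MatrixSymmetries
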