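import Pool.Agent.U468.GL.Rank3

set_option autoImplicit false

/-!
# The Betti numbers in the middle and the highest weight of a compatible action of `sl_2`

Let `K` be a field of characteristic zero (for example `ℚ`), `S = K[X_0, …, X_(m - 1)]` and `M ≠ 0` an `S`-module of
finite dimension over `K`. Let `sl_2` act on the span `V` of the variables (any finite dimensional representation; the
variables `X_c` are weight vectors of weight `w c`) and on `M`, compatibly with the multiplication `V ⊗ M → M`, and let
`M` have a vector of weight `≥ r` (`E ^ r ≠ 0`). Let `P` be the number of positive weights `w c`, `Z` the number of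
those which are zero (so `m = 2 P + Z`), and let the variables of weight zero be nilpotent on `M` (for example, `M` is
graded). Then every resolution `G` of `M` by finite free `S`-modules satisfies, for `0 ≤ j ≤ Z`,

`(r + 1 + ∑ (positive weights)) * b ≤ rank G_(P + j)`

with `b = binom(Z, j)` if `Z ≤ 4` or `j ≤ 1` or `Z - 1 ≤ j`, and with `b = 1` in general.

So the Betti numbers `β_i` with `P ≤ i ≤ m - P` grow linearly with the highest weight. If `P = 1` or `P = 2`, this
concerns all `i` with `2 ≤ i ≤ m - 2`, and Horrocks' inequality `β_i ≥ binom(m, i)` holds for all `i`, in any number of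
variables, as soon as `r + 2 ≥ binom(m, ⌊m / 2⌋)` (the inequality is known for `i = 0, 1, m - 1, m`). For five
variables `P ≤ 2` for every representation `V`, and `r ≥ 8` suffices: then Horrocks' conjecture holds for `M` (`r ≥ 3`
suffices if `V` is irreducible). In general the conjecture holds for the Betti numbers in the middle, `P ≤ i ≤ m - P`,
if the highest weight is large.

Proof: `sl_2` acts on the Koszul complex `∧ V ⊗ M` and on its homology. Let `h ≥ r` be the highest weight of `M`, and
`M_h` the part of this weight. The highest weight of the complex is `h + ∑ (positive weights)`, and the part of this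
weight is the exterior product of all variables of positive weight with the Koszul complex of `M_h` for the variables
of weight zero. It is a direct summand, its homology does not vanish, and each vector of this weight in the homology
generates an irreducible representation of dimension `h + 1 + ∑ (positive weights)`.
-/

namespace Pool.Agent.Results.MP_e2ce73_al.Sl2HighestWeight

open MvPolynomial Pool.Agent.Y577.BT Pool.Agent.U468.GL

universe u v

/-- **The result.** -/
theorem result (K : Type u) [Field K] [CharZero K] (m : ℕ)
    (M : Type v) [AddCommGroup M] [Module K M] [FiniteDimensional K M] [Nontrivial M]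
    [Module (MvPolynomial (Fin m) K) M] [IsScalarTower K (MvPolynomial (Fin m) K) M]
    (w : Fin m → ℤ) (A B : Matrix (Fin m) (Fin m) K) (E F H : Module.End K M)
    (h : Sl2Action (fun c => Algebra.lsmul K K M (X c : MvPolynomial (Fin m) K)) w A B E F H)
    (hnil : ∀ c, w c = 0 → ∃ N : ℕ, ∀ z : M, (X c : MvPolynomial (Fin m) K) ^ N • z = 0)
    (r : ℕ) (hr : E ^ r ≠ 0) (G : FreeRes (MvPolynomial (Fin m) K) M) (j b : ℕ)
    (hj : j ≤ (Finset.univ.filter fun c => w c = 0).card)
    (hb : b = 1 ∨ (b = (Finset.univ.filter fun c => w c = 0).card.choose j ∧
      ((Finset.univ.filter fun c => w c = 0).card ≤ 4 ∨ j ≤ 1 ∨ (Finset.univ.filter fun c => w c = 0).card ≤ j + 1))) :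
    (r + ∑ c, (w c).toNat + 1) * b ≤ G.rank ((Finset.univ.filter fun c => 0 < w c).card + j) :=
  action_poly K m M w A B E F H h hnil r hr G j b hj hb

end Pool.Agent.Results.MP_e2ce73_al.Sl2HighestWeight
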